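import Pool.Agent.H14.TOW.Targets

/-!
# FGI: subfields of finitely generated fields
-/

set_option autoImplicit false

namespace Pool.Agent.H78.TOW

open MvPolynomial Pool.Agent.H14.TOW

open scoped IntermediateField.algebraAdjoinAdjoin in
/-- an algebraic extension `E` of `F` and a purely transcendental one are linearly disjoint -/
theorem fgi_ind (F E K : Type) [Field F] [Field E] [Field K] [Algebra F E] [Algebra E K]
    [Algebra F K] [IsScalarTower F E K] {ι : Type} [Fintype ι] (w : Set K)
    (hw : AlgebraicIndependent E ((↑) : w → K)) (e : ι → E) (he : LinearIndependent F e) :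
    LinearIndependent (IntermediateField.adjoin F w) (fun i => algebraMap E K (e i)) := by
  classical
  rw [← LinearIndependent.iff_fractionRing (R := Algebra.adjoin F w)]
  rw [Fintype.linearIndependent_iff]
  intro g hg
  have hP : ∀ i, ∃ P : MvPolynomial w F, aeval ((↑) : w → K) P = (g i : K) := by
    intro i
    have h1 := (g i).2
    have h2 : Algebra.adjoin F w = (aeval ((↑) : w → K) : MvPolynomial w F →ₐ[F] K).range := by
      rw [← Algebra.adjoin_range_eq_range_aeval, Subtype.range_coe]
    exact h2.le h1
  choose P hP using hP
  have hQ : aeval ((↑) : w → K) (∑ i, C (e i) * MvPolynomial.map (algebraMap F E) (P i)) =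
      (0 : K) := by
    rw [map_sum, ← hg]
    refine Finset.sum_congr rfl fun i _ => ?_
    rw [map_mul, aeval_C, aeval_map_algebraMap, hP i, Algebra.smul_def, mul_comm]
    rfl
  have hQ0 : ∑ i, C (e i) * MvPolynomial.map (algebraMap F E) (P i) = 0 := by
    have := (algebraicIndependent_iff_injective_aeval.1 hw)
    apply this
    rw [hQ, map_zero]
  have hc : ∀ m i, coeff m (P i) = 0 := by
    intro m
    have h1 : ∑ i, coeff m (P i) • e i = 0 := by
      have h2 := congrArg (coeff m) hQ0
      rw [coeff_sum, coeff_zero] at h2
      rw [← h2]
      refine Finset.sum_congr rfl fun i _ => ?_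
      rw [coeff_C_mul, coeff_map, Algebra.smul_def, mul_comm]
    exact Fintype.linearIndependent_iff.1 he _ h1
  intro i
  have hP0 : P i = 0 := by
    ext m
    rw [hc m i, coeff_zero]
  apply Subtype.ext
  rw [← hP i, hP0, map_zero]
  rfl

/-- the algebraic extension is finite -/
theorem fgi_fin (F E K : Type) [Field F] [Field E] [Field K] [Algebra F E] [Algebra E K]
    [Algebra F K] [IsScalarTower F E K] [Algebra.IsAlgebraic F E] [Algebra.EssFiniteType F K] :
    Module.Finite F E := by
  classical
  obtain ⟨w, hw⟩ := exists_isTranscendenceBasis E K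
  have hwF : IsTranscendenceBasis F ((↑) : w → K) :=
    (Algebra.IsAlgebraic.isTranscendenceBasis_iff F E).2 hw
  have halg := hwF.isAlgebraic_field
  rw [Subtype.range_coe] at halg
  have hess : Algebra.EssFiniteType (IntermediateField.adjoin F w) K :=
    Algebra.EssFiniteType.of_comp F _ K
  have hfin : Module.Finite (IntermediateField.adjoin F w) K :=
    Algebra.finite_of_essFiniteType_of_isAlgebraic
  let b := Module.Basis.ofVectorSpace F E
  have hli : LinearIndependent (IntermediateField.adjoin F w)
      (fun i => algebraMap E K (b i)) := by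
    rw [linearIndependent_iff_finset_linearIndependent]
    intro s
    have h1 : LinearIndependent F (fun i : s => b i.1) :=
      b.linearIndependent.comp (fun i : s => i.1) Subtype.val_injective
    exact fgi_ind F E K w hw.1 (fun i : s => b i.1) h1
  have hno : IsNoetherian (IntermediateField.adjoin F w) K :=
    isNoetherian_of_isNoetherianRing_of_finite _ _
  have hf : Finite (Module.Basis.ofVectorSpaceIndex F E) :=
    LinearIndependent.finite_of_isNoetherian (R := IntermediateField.adjoin F w) (M := K) hli
  exact Module.Finite.of_basis b

theorem pf_FGI : T_FGI := by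
  intro k K _ _ _ hfg E
  have hess : Algebra.EssFiniteType k K := IntermediateField.fg_top_iff.1 hfg
  have htr : FinTrdeg k E := by
    apply FinTrdeg.of_trdeg
    have h1 := trdeg_lt_aleph0 k K
    rw [← trdeg_add_eq k E] at h1
    exact lt_of_le_of_lt (self_le_add_right _ _) h1
  obtain ⟨s, hs⟩ := exists_finset_isTranscendenceBasis k E
  have halg := hs.isAlgebraic_field
  have hF : (IntermediateField.adjoin k (Set.range ((↑) : s → E))).FG := by
    apply IntermediateField.fg_adjoin_of_finite
    exact Set.finite_range _
  have h2 : Algebra.EssFiniteType k (IntermediateField.adjoin k (Set.range ((↑) : s → E))) :=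
    IntermediateField.essFiniteType_iff.2 hF
  have h3 : Algebra.EssFiniteType (IntermediateField.adjoin k (Set.range ((↑) : s → E))) K :=
    Algebra.EssFiniteType.of_comp k _ K
  have h4 : Module.Finite (IntermediateField.adjoin k (Set.range ((↑) : s → E))) E :=
    fgi_fin _ E K
  have h5 : Algebra.EssFiniteType k E :=
    Algebra.EssFiniteType.comp k (IntermediateField.adjoin k (Set.range ((↑) : s → E))) E
  exact IntermediateField.fg_top_iff.2 h5

end Pool.Agent.H78.TOW
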