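import Pool.Agent.H14.TOW.TargetsM
import Pool.Agent.H49.VZ.Base

/-!
# INX: totally invariant places of codimension one do not exist outside a closed set
-/

set_option autoImplicit false

open MvPolynomial
open Pool.Agent.H12.ZD (pmap)
open Pool.Agent.H18.HIT Pool.Agent.H18.HX Pool.Agent.H18.VP Pool.Agent.H18.VZ Pool.Agent.H14.TOW

namespace Pool.Agent.H78.TOW

/-- some homogeneous component is not divisible by `P` -/
theorem inx_cmp {L : ℕ} {k : Type} [Field k] (P D : Po L k) (h : ¬ P ∣ D) :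
    ∃ t, ¬ P ∣ homogeneousComponent t D := by
  by_contra hc
  push Not at hc
  apply h
  rw [← sum_homogeneousComponent D]
  exact Finset.dvd_sum fun t _ => hc t

theorem pf_INX (h1 : T_MDL) (h2 : T_MSL) (h3 : T_MTD) (h4 : T_MBE) (h5 : T_PID) (h6 : T_RVR)
    (h7 : T_TTH) (h8 : T_PDV) (h9 : T_INV) : T_INX := by
  classical
  intro k E _ _ _ _ _ σ hfg hNfb n e j γ u htr hInd hSpn hnj
  obtain ⟨n', r, d, P, F, y, hM⟩ := h1 k E σ hfg
  have hn' : Algebra.trdeg k E = n' := h3 k E σ n' r d P F y hM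
  have hnn : n = n' := by
    have := htr.symm.trans hn'
    exact_mod_cast this
  subst hnn
  obtain ⟨hSlf, hNIv'⟩ := h2 k E σ n r d P F y hM
  have hNIv := hNIv' hNfb
  obtain ⟨ec, θ, Δ, hBas, hec⟩ := h4 k E σ n r d e P F y γ hM hSpn
  obtain ⟨g, hg, hgH⟩ := h9 (n + 1) r d ec k P F θ Δ hM.hyp hM.hom hSlf hBas hNIv
  -- components
  obtain ⟨s, hs⟩ := inx_cmp P (up g) (Pool.Agent.H49.VZ.not_dvd_up hM.hyp hg)
  have hFΔ : ¬ P ∣ aeval F Δ := by
    intro hd
    apply hBas.ne
    have h := hSlf.inj Δ (Ideal.mem_span_singleton.2 hd)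
    exact Ideal.mem_span_singleton.1 h
  obtain ⟨t, ht⟩ := inx_cmp P (aeval F Δ) hFΔ
  have hsy : aeval y (homogeneousComponent s (up g)) ≠ 0 := fun h0 =>
    hs ((hM.ker s _ (homogeneousComponent_isHomogeneous s _)).1 h0)
  have hty : aeval y (homogeneousComponent t (aeval F Δ : Po (n + 1 + 1) k)) ≠ 0 := fun h0 =>
    ht ((hM.ker t _ (homogeneousComponent_isHomogeneous t _)).1 h0)
  choose mγ Aγ Bγ hAγ hBγ hBγ0 hγq using fun i => hM.gen (γ i)
  choose mu Au Bu hAu hBu hBu0 huq using fun i => hM.gen (u i)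
  refine ⟨((Finset.univ.image y).filter (· ≠ 0)) ∪ ({aeval y (F (Fin.succ 0)),
    aeval y (homogeneousComponent s (up g)),
    aeval y (homogeneousComponent t (aeval F Δ : Po (n + 1 + 1) k))} : Finset E) ∪
    (Finset.univ.image fun i => aeval y (Bγ i)) ∪ (Finset.univ.image fun i => aeval y (Bu i)),
    ?_, ?_⟩
  · intro h0
    simp only [Finset.mem_union, Finset.mem_filter, Finset.mem_insert, Finset.mem_singleton,
      Finset.mem_image, Finset.mem_univ, true_and] at h0
    rcases h0 with ((h0 | h0 | h0 | h0) | ⟨i, h0⟩) | ⟨i, h0⟩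
    · exact h0.2 rfl
    · exact hM.ne h0.symm
    · exact hsy h0.symm
    · exact hty h0.symm
    · exact hBγ0 i h0
    · exact hBu0 i h0
  intro κ _ _ O ρ τ hPlc hA hτ hu a ha
  obtain ⟨hR1, hR2, hR3⟩ := h6 k E κ σ O ρ τ hPlc
  have hyO : ∀ i, y i ∈ O := by
    intro i
    by_cases hi : y i = 0
    · rw [hi]; exact zero_mem _
    · refine (hA (y i) ?_).1
      simp only [Finset.mem_union, Finset.mem_filter, Finset.mem_image, Finset.mem_univ,
        true_and, exists_apply_eq_apply]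
      left; left; left
      exact hi
  have hUF : Uni O ρ (aeval y (F (Fin.succ 0))) := by
    apply hA
    simp only [Finset.mem_union, Finset.mem_insert, Finset.mem_singleton]
    left; left; right; left; trivial
  have hUs : Uni O ρ (aeval y (homogeneousComponent s (up g))) := by
    apply hA
    simp only [Finset.mem_union, Finset.mem_insert, Finset.mem_singleton]
    left; left; right; right; left; trivial
  have hUt : Uni O ρ (aeval y (homogeneousComponent t (aeval F Δ : Po (n + 1 + 1) k))) := by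
    apply hA
    simp only [Finset.mem_union, Finset.mem_insert, Finset.mem_singleton]
    left; left; right; right; right; trivial
  have hUγ : ∀ i, Uni O ρ (aeval y (Bγ i)) := by
    intro i
    apply hA
    simp only [Finset.mem_union, Finset.mem_image, Finset.mem_univ, true_and,
      exists_apply_eq_apply]
    left; right; trivial
  have hUu : ∀ i, Uni O ρ (aeval y (Bu i)) := by
    intro i
    apply hA
    simp only [Finset.mem_union, Finset.mem_image, Finset.mem_univ, true_and,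
      exists_apply_eq_apply]
    right; trivial
  -- the point of the place
  obtain ⟨v, hv⟩ : ∃ v : Fin (n + 1 + 1) → κ, v = fun i => rv O ρ (y i) := ⟨_, rfl⟩
  have hvc : ∀ c : Po (n + 1 + 1) k, aeval y c ∈ O ∧ rv O ρ (aeval y c) = aeval v c := by
    intro c
    rw [hv]
    exact hR1 (n + 1 + 1) y hyO c
  have hv1 : v (Fin.succ 0) = 1 := by
    have h := (hvc 1).2
    rw [map_one, map_one] at h
    rw [hv]
    change rv O ρ (y (Fin.succ 0)) = 1
    rw [hM.y1, h]
  have hr0 : rv O ρ 0 = 0 := by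
    have h := (hvc 0).2
    rwa [map_zero, map_zero] at h
  have hPy : aeval y P = 0 := (hM.ker r P hM.hyp.hom).2 dvd_rfl
  obtain ⟨hprime, hpid⟩ := h5 k κ (n + 1 + 1) v
  have hPp : P ∈ pid v := by
    rw [(hpid P).2.2 r hM.hyp.hom, ← (hvc P).2, hPy, hr0]
  have hmap : ∀ i, aeval v (F i) = aeval v (F (Fin.succ 0)) * τ (v i) := by
    intro i
    rw [← (hvc (F i)).2, hM.map i, (hR2 _ _ hUF.1 (hPlc.stab _ (hyO i)).1).2.1,
      (hPlc.stab _ (hyO i)).2, (hvc _).2, hv]
  have hne : aeval v (F (Fin.succ 0)) ≠ 0 := by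
    rw [← (hvc _).2]; exact hUF.2
  have hΔ : aeval F Δ ∉ pid v := by
    intro hmem
    have h := ((hpid _).1.1 hmem) t
    rw [← (hvc _).2] at h
    exact hUt.2 h
  have hQuo : ∀ (b : E) (m : ℕ) (A B : Po (n + 1 + 1) k), A.IsHomogeneous m →
      B.IsHomogeneous m → Uni O ρ (aeval y B) → b * aeval y B = aeval y A →
      b ∈ O ∧ rv O ρ b * aeval v B = aeval v A := by
    intro b m A B _ _ hB hb
    have h := hR3 b (aeval y B) (aeval y A) hB (hvc A).1 hb
    rw [(hvc A).2, (hvc B).2] at h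
    exact h
  have hQγ : ∀ i, Quo (k := k) v (rv O ρ (γ i)) := by
    intro i
    refine ⟨mγ i, Aγ i, Bγ i, hAγ i, hBγ i, ?_, ?_⟩
    · rw [← (hvc _).2]; exact (hUγ i).2
    · exact (hQuo (γ i) (mγ i) _ _ (hAγ i) (hBγ i) (hUγ i) (hγq i)).2
  have hQu : ∀ i, Quo (k := k) v (rv O ρ (u i)) := by
    intro i
    refine ⟨mu i, Au i, Bu i, hAu i, hBu i, ?_, ?_⟩
    · rw [← (hvc _).2]; exact (hUu i).2
    · exact (hQuo (u i) (mu i) _ _ (hAu i) (hBu i) (hUu i) (huq i)).2
  have hTot : Tot P F ec θ (pid v) := h7 k κ τ n r d ec e P θ Δ F v (fun i => rv O ρ (γ i))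
    hM.hyp hM.hom (by have := hM.two; omega) hBas hv1 hPp hmap hne hΔ hτ hQγ hec
  by_contra hnu
  obtain ⟨m, A0, B0, hA0, hB0, hB0n, hab⟩ := hM.gen a
  have hA0n : aeval y A0 ≠ 0 := by
    rw [← hab]
    exact mul_ne_zero ha hB0n
  have hc : ∃ c ∈ pid (k := k) v, ¬ P ∣ c := by
    by_contra hcc
    push Not at hcc
    have key : ∀ C : Po (n + 1 + 1) k, C.IsHomogeneous m → aeval y C ≠ 0 →
        Uni O ρ (aeval y C) := by
      intro C hC hCn
      refine ⟨(hvc C).1, ?_⟩
      rw [(hvc C).2]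
      intro h0
      have h := (hpid C).2.2 m hC
      exact hCn ((hM.ker m C hC).2 (hcc C (h.2 h0)))
    have h := hQuo a m A0 B0 hA0 hB0 (key B0 hB0 hB0n) hab
    apply hnu
    refine ⟨h.1, ?_⟩
    intro h0
    rw [h0, zero_mul] at h
    apply (key A0 hA0 hA0n).2
    rw [(hvc A0).2]
    exact h.2.symm
  obtain ⟨h, hPdv⟩ := h8 k κ n r j P v (fun i => rv O ρ (u i)) hM.hyp hv1 hPp hu hQu hnj hc
  have hup := hgH (pid v) h hPdv (fun c hcm t => (hpid c).2.1 hcm t) hTot
  have h := ((hpid _).1.1 hup) s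
  rw [← (hvc _).2] at h
  exact hUs.2 h

end Pool.Agent.H78.TOW
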